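import Pool.Agent.Helper55.UN.CR3

/-!
Block CE5: if the roots of value one are pairwise adjacent and the two halves of the weights have
the same number of elements, then `X = -X`.
-/

open Module

namespace UN

variable {K : Type*} [Field K] [CharZero K] {M : Type*} [AddCommGroup M] [Module K M]
  {B : LinearMap.BilinForm K M} {s : M →ₗ[K] K} {c : K} {Φ X : Finset M}

open Classical in
/-- CE5: all adjacent. -/
theorem USL.wedge_neg (h : USL B s c Φ X)
    (heq : (X.filter (fun x => s x = c)).card = (X.filter (fun x => s x = c - 1)).card)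
    (hadj : ∀ a ∈ Φ, ∀ b ∈ Φ, s a = 1 → s b = 1 → a ≠ b → B a b = 1)
    (hr : ∃ a ∈ Φ, s a = 1 ∧ (X.filter (fun x => B x a = 1)).card ≠ 1) :
    ∀ x ∈ X, -x ∈ X := by
  set P := Φ.filter (fun a => s a = 1) with hPdef
  have hP : ∀ a, a ∈ P ↔ a ∈ Φ ∧ s a = 1 := fun a => Finset.mem_filter
  set X₁ := X.filter (fun x => s x = c) with hX₁
  set X₂ := X.filter (fun x => s x = c - 1) with hX₂
  set S : M → Finset M := fun x => P.filter (fun a => B x a = 1) with hS
  set S' : M → Finset M := fun x => P.filter (fun a => B x a = -1) with hS'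
  set d := P.card with hd
  have memX₁ : ∀ x, x ∈ X₁ ↔ x ∈ X ∧ s x = c := fun x => Finset.mem_filter
  have memX₂ : ∀ x, x ∈ X₂ ↔ x ∈ X ∧ s x = c - 1 := fun x => Finset.mem_filter
  have memS : ∀ x a, a ∈ S x ↔ a ∈ P ∧ B x a = 1 := fun x a => Finset.mem_filter
  have memS' : ∀ x a, a ∈ S' x ↔ a ∈ P ∧ B x a = -1 := fun x a => Finset.mem_filter
  have two0 : (2 : K) ≠ 0 := two_ne_zero
  have m1ne : (-1 : K) ≠ 1 := by
    intro h1
    apply two0
    linear_combination -h1
  -- values on weights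
  have v1 : ∀ x ∈ X₁, ∀ a ∈ P, B x a = if a ∈ S x then 1 else 0 := by
    intro x hx a ha
    rcases h.plus_val ((memX₁ x).mp hx).1 ((memX₁ x).mp hx).2 ((hP a).mp ha).1 ((hP a).mp ha).2
      with h1 | h1
    · rw [if_neg, h1]
      rw [memS, h1]
      exact fun h2 => zero_ne_one h2.2
    · rw [if_pos ((memS x a).mpr ⟨ha, h1⟩), h1]
  have v2 : ∀ x ∈ X₂, ∀ a ∈ P, B x a = if a ∈ S' x then -1 else 0 := by
    intro x hx a ha
    rcases h.minus_val ((memX₂ x).mp hx).1 ((memX₂ x).mp hx).2 ((hP a).mp ha).1 ((hP a).mp ha).2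
      with h1 | h1
    · rw [if_neg, h1]
      rw [memS', h1]
      intro h2
      exact one_ne_zero (neg_eq_zero.mp h2.2.symm)
    · rw [if_pos ((memS' x a).mpr ⟨ha, h1⟩), h1]
  -- cardinalities of the sets
  have c1 : ∀ x ∈ X₁, ((S x).card : K) = (d + 1) * c := by
    intro x hx
    rw [← ((memX₁ x).mp hx).2, ← h.B_sum hadj hP x, Finset.sum_congr rfl (v1 x hx),
      Finset.sum_ite_mem, Finset.sum_const, nsmul_eq_mul, mul_one,
      Finset.inter_eq_right.mpr (Finset.filter_subset _ _)]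
  have c2 : ∀ x ∈ X₂, ((S' x).card : K) = (d + 1) * (1 - c) := by
    intro x hx
    have h1 := h.B_sum hadj hP x
    rw [((memX₂ x).mp hx).2, Finset.sum_congr rfl (v2 x hx), Finset.sum_ite_mem,
      Finset.sum_const, nsmul_eq_mul,
      Finset.inter_eq_right.mpr (Finset.filter_subset _ _)] at h1
    linear_combination -h1
  -- a first weight
  obtain ⟨a₀, ha₀, hsa₀, hra₀⟩ := hr
  have ha₀P : a₀ ∈ P := (hP a₀).mpr ⟨ha₀, hsa₀⟩
  obtain ⟨x₀, hx₀, hxa₀⟩ := h.faith a₀ ha₀
  have hx₀1 : x₀ ∈ X₁ := by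
    rw [memX₁]
    refine ⟨hx₀, ?_⟩
    rcases h.sx x₀ hx₀ with h1 | h1
    · exact h1
    · exfalso
      rcases h.minus_val hx₀ h1 ha₀ hsa₀ with h2 | h2 <;> rw [hxa₀] at h2
      · exact one_ne_zero h2
      · exact m1ne h2.symm
  have hx₀2 : x₀ - a₀ ∈ X₂ := by
    rw [memX₂]
    refine ⟨h.xsub x₀ hx₀ a₀ ha₀ hxa₀, ?_⟩
    rw [map_sub, ((memX₁ x₀).mp hx₀1).2, hsa₀]
  set k := (S x₀).card with hk
  have hkc : (k : K) = (d + 1) * c := c1 x₀ hx₀1
  have hk1 : 1 ≤ k := Finset.card_pos.mpr ⟨a₀, (memS x₀ a₀).mpr ⟨ha₀P, hxa₀⟩⟩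
  have hkd : k ≤ d := Finset.card_le_card (Finset.filter_subset _ _)
  have ck1 : ∀ x ∈ X₁, (S x).card = k := by
    intro x hx
    have h1 := c1 x hx
    rw [← hkc] at h1
    exact_mod_cast h1
  have ck2 : ∀ x ∈ X₂, (S' x).card = d + 1 - k := by
    intro x hx
    have h1 := c2 x hx
    have h2 : ((S' x).card : K) + k = ((d + 1 : ℕ) : K) := by
      rw [h1, hkc]; push_cast; ring
    have h3 : (S' x).card + k = d + 1 := by exact_mod_cast h2
    omega
  -- values of differences of roots of value one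
  have sub1 : ∀ x ∈ X₁, S x ⊆ P := fun x _ => Finset.filter_subset _ _
  have sub2 : ∀ x ∈ X₂, S' x ⊆ P := fun x _ => Finset.filter_subset _ _
  have hBP : ∀ a ∈ P, ∀ b ∈ P, B a b = 1 + if a = b then 1 else 0 := by
    intro a ha b hb
    by_cases hab : a = b
    · subst hab
      rw [if_pos rfl, h.two a ((hP a).mp ha).1]
      norm_num
    · rw [if_neg hab, add_zero]
      exact hadj a ((hP a).mp ha).1 b ((hP b).mp hb).1 ((hP a).mp ha).2 ((hP b).mp hb).2 hab
  have hdiff : ∀ a ∈ P, ∀ b ∈ P, a ≠ b → a - b ∈ Φ := by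
    intro a ha b hb hab
    apply h.sub a ((hP a).mp ha).1 b ((hP b).mp hb).1
    rw [hBP a ha b hb, if_neg hab, add_zero]
  -- exchange
  have ex1 : ∀ y ∈ X₁, ∀ a ∈ S y, ∀ b ∈ P, b ∉ S y →
      ∃ z ∈ X₁, S z = insert b ((S y).erase a) := by
    intro y hy a ha b hb hbS
    have haP := ((memS y a).mp ha).1
    have hab : a ≠ b := by rintro rfl; exact hbS ha
    have hya := ((memS y a).mp ha).2
    have hyb : B y b = 0 := by rw [v1 y hy b hb, if_neg hbS]
    have hz : y - (a - b) ∈ X := by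
      apply h.xsub y ((memX₁ y).mp hy).1 _ (hdiff a haP b hb hab)
      rw [map_sub, hya, hyb, sub_zero]
    refine ⟨y - (a - b), ?_, ?_⟩
    · rw [memX₁]
      refine ⟨hz, ?_⟩
      rw [map_sub, map_sub, ((hP a).mp haP).2, ((hP b).mp hb).2, sub_self, sub_zero,
        ((memX₁ y).mp hy).2]
    · ext w
      rw [memS, Finset.mem_insert, Finset.mem_erase]
      have e : ∀ w ∈ P, B (y - (a - b)) w =
          B y w - ((if a = w then 1 else 0) - (if b = w then 1 else 0)) := by
        intro w hw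
        rw [map_sub, map_sub, LinearMap.sub_apply, LinearMap.sub_apply, hBP a haP w hw,
          hBP b hb w hw]
        ring
      constructor
      · rintro ⟨hw, h1⟩
        rw [e w hw] at h1
        by_cases hwb : w = b
        · exact Or.inl hwb
        · right
          rw [if_neg (Ne.symm hwb), sub_zero] at h1
          by_cases hwa : a = w
          · exfalso
            subst hwa
            rw [if_pos rfl, hya, sub_self] at h1
            exact zero_ne_one h1
          · rw [if_neg hwa, sub_zero] at h1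
            exact ⟨Ne.symm hwa, (memS y w).mpr ⟨hw, h1⟩⟩
      · rintro (rfl | ⟨hwa, hwS⟩)
        · refine ⟨hb, ?_⟩
          rw [e w hb, if_neg hab, if_pos rfl, hyb]
          ring
        · obtain ⟨hwP, hyw⟩ := (memS y w).mp hwS
          refine ⟨hwP, ?_⟩
          have hwb : b ≠ w := by rintro rfl; exact hbS hwS
          rw [e w hwP, if_neg (Ne.symm hwa), if_neg hwb, hyw]
          ring
  have ex2 : ∀ y ∈ X₂, ∀ a ∈ S' y, ∀ b ∈ P, b ∉ S' y →
      ∃ z ∈ X₂, S' z = insert b ((S' y).erase a) := by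
    intro y hy a ha b hb hbS
    have haP := ((memS' y a).mp ha).1
    have hab : a ≠ b := by rintro rfl; exact hbS ha
    have hya := ((memS' y a).mp ha).2
    have hyb : B y b = 0 := by rw [v2 y hy b hb, if_neg hbS]
    have hz : y - (b - a) ∈ X := by
      apply h.xsub y ((memX₂ y).mp hy).1 _ (hdiff b hb a haP (Ne.symm hab))
      rw [map_sub, hya, hyb]
      ring
    refine ⟨y - (b - a), ?_, ?_⟩
    · rw [memX₂]
      refine ⟨hz, ?_⟩
      rw [map_sub, map_sub, ((hP a).mp haP).2, ((hP b).mp hb).2, sub_self, sub_zero,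
        ((memX₂ y).mp hy).2]
    · ext w
      rw [memS', Finset.mem_insert, Finset.mem_erase]
      have e : ∀ w ∈ P, B (y - (b - a)) w =
          B y w + ((if a = w then 1 else 0) - (if b = w then 1 else 0)) := by
        intro w hw
        rw [map_sub, map_sub, LinearMap.sub_apply, LinearMap.sub_apply, hBP a haP w hw,
          hBP b hb w hw]
        ring
      constructor
      · rintro ⟨hw, h1⟩
        rw [e w hw] at h1
        by_cases hwb : w = b
        · exact Or.inl hwb
        · right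
          rw [if_neg (Ne.symm hwb), sub_zero] at h1
          by_cases hwa : a = w
          · exfalso
            subst hwa
            rw [if_pos rfl, hya] at h1
            have : (1 : K) = 0 := by linear_combination h1
            exact one_ne_zero this
          · rw [if_neg hwa, add_zero] at h1
            exact ⟨Ne.symm hwa, (memS' y w).mpr ⟨hw, h1⟩⟩
      · rintro (rfl | ⟨hwa, hwS⟩)
        · refine ⟨hb, ?_⟩
          rw [e w hb, if_neg hab, if_pos rfl, hyb]
          ring
        · obtain ⟨hwP, hyw⟩ := (memS' y w).mp hwS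
          refine ⟨hwP, ?_⟩
          have hwb : b ≠ w := by rintro rfl; exact hbS hwS
          rw [e w hwP, if_neg (Ne.symm hwa), if_neg hwb, hyw]
          ring
  -- images
  have im1 : X₁.image S = P.powersetCard k := exchange_image ⟨x₀, hx₀1⟩ ck1 sub1 ex1
  have im2 : X₂.image S' = P.powersetCard (d + 1 - k) :=
    exchange_image ⟨x₀ - a₀, hx₀2⟩ ck2 sub2 ex2
  -- injectivity
  have sep : ∀ x ∈ X, ∀ y ∈ X, (∀ a ∈ P, B x a = B y a) → x = y := by
    intro x hx y hy hxy
    by_contra hne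
    obtain ⟨g, hg, hxg, hyg⟩ := h.sep x hx y hy hne
    have key : B x g = B y g := by
      rcases h.root_cases hg with h1 | ⟨a, ha, hsa, rfl⟩ | ⟨a, ha, b, hb, hsa, hsb, -, rfl⟩
      · exact hxy g ((hP g).mpr ⟨hg, h1⟩)
      · rw [map_neg, map_neg, hxy a ((hP a).mpr ⟨ha, hsa⟩)]
      · rw [map_sub, map_sub, hxy a ((hP a).mpr ⟨ha, hsa⟩), hxy b ((hP b).mpr ⟨hb, hsb⟩)]
    rw [hxg, hyg] at key
    exact m1ne key.symm
  have inj1 : Set.InjOn S X₁ := by
    intro x hx y hy hxy
    refine sep x ((memX₁ x).mp hx).1 y ((memX₁ y).mp hy).1 (fun a ha => ?_)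
    rw [v1 x hx a ha, v1 y hy a ha, hxy]
  have inj2 : Set.InjOn S' X₂ := by
    intro x hx y hy hxy
    refine sep x ((memX₂ x).mp hx).1 y ((memX₂ y).mp hy).1 (fun a ha => ?_)
    rw [v2 x hx a ha, v2 y hy a ha, hxy]
  have card1 : X₁.card = d.choose k := by
    rw [← Finset.card_image_of_injOn inj1, im1, Finset.card_powersetCard]
  have card2 : X₂.card = d.choose (k - 1) := by
    rw [← Finset.card_image_of_injOn inj2, im2, Finset.card_powersetCard,
      ← Nat.choose_symm (show k - 1 ≤ d by omega)]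
    congr 1
    omega
  -- the middle layer
  have hmid : d + 1 = 2 * k := by
    have h1 : d.choose k = d.choose (k - 1) := by rw [← card1, ← card2]; exact heq
    obtain ⟨j, hj⟩ : ∃ j, k = j + 1 := ⟨k - 1, by omega⟩
    rw [hj, Nat.add_sub_cancel] at h1
    have h2 := Nat.choose_succ_right_eq d j
    rw [h1] at h2
    have h3 : 0 < d.choose j := Nat.choose_pos (by omega)
    have h4 := Nat.eq_of_mul_eq_mul_left h3 h2
    omega
  -- opposite weights
  have opp : ∀ x ∈ X, ∀ y ∈ X, (∀ a ∈ P, B y a = - B x a) → -x ∈ X := by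
    intro x _ y hy hxy
    have h1 : x + y = 0 := by
      apply h.hit
      intro a ha hsa
      rw [map_add, LinearMap.add_apply, hxy a ((hP a).mpr ⟨ha, hsa⟩), add_neg_cancel]
    have h2 : -x = y := neg_eq_of_add_eq_zero_right h1
    rw [h2]
    exact hy
  intro x hx
  rcases h.sx x hx with hsx | hsx
  · have hx1 : x ∈ X₁ := (memX₁ x).mpr ⟨hx, hsx⟩
    have hSx : S x ∈ X₂.image S' := by
      rw [im2, Finset.mem_powersetCard]
      refine ⟨sub1 x hx1, ?_⟩
      rw [ck1 x hx1]
      omega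
    obtain ⟨y, hy, hSy⟩ := Finset.mem_image.mp hSx
    refine opp x hx y ((memX₂ y).mp hy).1 (fun a ha => ?_)
    rw [v2 y hy a ha, v1 x hx1 a ha, hSy]
    split_ifs <;> simp
  · have hx2 : x ∈ X₂ := (memX₂ x).mpr ⟨hx, hsx⟩
    have hSx : S' x ∈ X₁.image S := by
      rw [im1, Finset.mem_powersetCard]
      refine ⟨sub2 x hx2, ?_⟩
      rw [ck2 x hx2]
      omega
    obtain ⟨y, hy, hSy⟩ := Finset.mem_image.mp hSx
    refine opp x hx y ((memX₁ y).mp hy).1 (fun a ha => ?_)
    rw [v1 y hy a ha, v2 x hx2 a ha, hSy]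
    split_ifs <;> simp

end UN
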