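import Pool.Agent.Helper13.UN.CE5
import Pool.Agent.Helper16.UN.CR2
import Pool.Agent.Helper7.UN.CE2
import Pool.Agent.Helper44.UN.CE3
import Pool.Agent.Helper98.UN.CE4

/-!
Block CE6: the case `p = q`: assembly of the combinatorial blocks CE1 - CE5.
-/

open Module

namespace UN

variable {K : Type*} [Field K] [CharZero K] {M : Type*} [AddCommGroup M] [Module K M]
  {B : LinearMap.BilinForm K M} {s : M →ₗ[K] K} {c : K} {Φ X : Finset M}

open Classical in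
/-- CE6: assembly of CE1 - CE5. -/
theorem USL.half (h : USL B s c Φ X)
    (heq : (X.filter (fun x => s x = c)).card = (X.filter (fun x => s x = c - 1)).card)
    (hneg : ¬ ∀ x ∈ X, -x ∈ X)
    (hr : ∃ a ∈ Φ, s a = 1 ∧ (X.filter (fun x => B x a = 1)).card ≠ 1) :
    ∃ n, Odd n ∧ 5 ≤ n ∧ X.card = 2 ^ (n - 1) ∧
      (X.filter (fun x => s x = c)).card = 2 ^ (n - 2) ∧
      (∀ a ∈ Φ, (X.filter (fun x => B x a = 1)).card = 2 ^ (n - 3)) := by
  by_cases hadj : ∀ a ∈ Φ, ∀ b ∈ Φ, s a = 1 → s b = 1 → a ≠ b → B a b = 1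
  · exact absurd (h.wedge_neg heq hadj hr) hneg
  · push Not at hadj
    obtain ⟨β, hβ, α, hα, hsβ, hsα, hne, hβα⟩ := hadj
    have h0 : B β α = 0 := by
      rcases CR2.f2 h hβ hα hsβ hsα hne with h1 | h1
      · exact h1
      · exact absurd h1 hβα
    obtain ⟨x, hx, y, hy, hxy, hxβ, hyβ⟩ := CR2.two_weights h hr hβ hsβ
    have hr' : ∃ x ∈ X, ∃ y ∈ X, x ≠ y ∧ B x β = 1 ∧ B y β = 1 :=
      ⟨x, hx, y, hy, hxy, hxβ, hyβ⟩
    rcases h.dich hα hβ hsα hsβ h0 hr' with h1 | ⟨g₀, hg₀, hβg, hu⟩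
    · refine h.spin heq hneg hr hα hβ hsα hsβ h0 (fun γ hγ hsγ hβγ => ?_)
      rcases h1 γ hγ hβγ (fun z hz hzβ => CR2.f4 h hβ hγ hz hsβ hsγ hβγ hzβ) with h2 | h2
      · exact h2
      · exfalso
        rw [h2, map_neg, hsα] at hsγ
        have : (2 : K) = 0 := by linear_combination -hsγ
        exact two_ne_zero this
    · exact absurd (h.neg_of_pair hα hβ hsα hsβ h0 hr' hg₀ hβg hu) hneg

end UN
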